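import Pool.Agent.X44.InvPath.Upper
import Pool.Agent.Helper903.ES.Main

/-!
# The inverse Turán number of paths of odd length

`ex⁻¹(k, P_{2t+1}) = C(⌊k/t⌋, 2) + o(k²)` for every `t ≥ 1`.
-/

set_option autoImplicit false

namespace Pool.Agent.Results.MP_002b89_co.OddPaths

open Finset Filter Asymptotics Pool.Agent.X44.InvPath

/-- The numbers of edges of the finite graphs `G` with `ex(G, F) < k`; here `exIn G F` is the
largest number of edges of a subgraph of `G` without a copy of `F`. -/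
def hostSizes (k : ℕ) {W : Type} (F : SimpleGraph W) : Set ℕ :=
  {e | ∃ (n : ℕ) (G : SimpleGraph (Fin n)), exIn G F < k ∧ G.edgeSet.ncard = e}

/-- The inverse Turán number `ex⁻¹(k, F)`. -/
noncomputable def exInv (k : ℕ) {W : Type} (F : SimpleGraph W) : ℕ := sSup (hostSizes k F)

theorem path_edge_card (n : ℕ) : Nat.card (SimpleGraph.pathGraph (n + 1)).edgeSet = n := by
  have hinj : Function.Injective (fun i : Fin n => s(i.castSucc, i.succ)) := by
    intro i j h
    simp only [Sym2.eq_iff] at h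
    rcases h with h | h
    · exact Fin.castSucc_injective n h.1
    · exfalso
      have h1 := congrArg Fin.val h.1
      have h2 := congrArg Fin.val h.2
      simp at h1 h2
      omega
  have hr : (SimpleGraph.pathGraph (n + 1)).edgeSet
      = Set.range (fun i : Fin n => s(i.castSucc, i.succ)) := by
    ext e
    induction e with
    | _ u v =>
      rw [SimpleGraph.mem_edgeSet, SimpleGraph.pathGraph_adj]
      constructor
      · rintro (h | h)
        · refine ⟨⟨u.val, by omega⟩, ?_⟩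
          simp only [Sym2.eq_iff]
          left
          exact ⟨Fin.ext rfl, Fin.ext (by simpa using h)⟩
        · refine ⟨⟨v.val, by omega⟩, ?_⟩
          simp only [Sym2.eq_iff]
          right
          exact ⟨Fin.ext rfl, Fin.ext (by simpa using h)⟩
      · rintro ⟨i, hi⟩
        simp only [Sym2.eq_iff] at hi
        rcases hi with h | h
        · left
          rw [← h.1, ← h.2]
          simp
        · right
          rw [← h.1, ← h.2]
          simp
  rw [hr, Nat.card_range_of_injective hinj, Nat.card_eq_fintype_card, Fintype.card_fin]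

theorem path_tree (n : ℕ) : (SimpleGraph.pathGraph (n + 1)).IsTree := by
  rw [SimpleGraph.isTree_iff_connected_and_card]
  refine ⟨SimpleGraph.pathGraph_connected n, ?_⟩
  rw [path_edge_card, Nat.card_eq_fintype_card, Fintype.card_fin]

/-- Erdős–Gallai: `ex(K_n, P_{2t+1}) ≤ t n` -/
theorem exIn_top (t n : ℕ) :
    exIn (⊤ : SimpleGraph (Fin n)) (SimpleGraph.pathGraph (2 * t + 2)) ≤ t * n := by
  classical
  unfold exIn
  apply csSup_le'
  rintro e ⟨H, -, hH, rfl⟩
  by_contra hcon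
  push Not at hcon
  apply hH
  have h1 : (2 * t + 1 - 1) * Fintype.card (Fin n) < 2 * H.edgeFinset.card := by
    rw [← Set.ncard_coe_finset, SimpleGraph.coe_edgeFinset, Fintype.card_fin]
    have : 2 * t + 1 - 1 = 2 * t := by omega
    rw [this]
    nlinarith
  obtain ⟨f, hf⟩ := ES903.erdos_sos H (2 * t + 1) h1 (SimpleGraph.pathGraph (2 * t + 2))
    (path_tree (2 * t + 1)) (by rw [Fintype.card_fin])
  exact ⟨⟨⟨f, fun {a b} hab => hf a b hab⟩, f.injective⟩⟩

theorem bdd (t : ℕ) (ht : 1 ≤ t) (k : ℕ) :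
    BddAbove (hostSizes k (SimpleGraph.pathGraph (2 * t + 2))) := by
  classical
  refine ⟨2 * k * (2 * k), ?_⟩
  rintro e ⟨n, G, hG, rfl⟩
  have h1 := supp_card G ht
  have h2 : G.edgeSet.ncard ≤ ((supp G) ×ˢ (supp G)).card := by
    rw [← Set.ncard_coe_finset ((supp G) ×ˢ (supp G))]
    have h3 : G.edgeSet ⊆ (fun p : Fin n × Fin n => s(p.1, p.2)) '' (((supp G) ×ˢ (supp G) :
        Finset (Fin n × Fin n)) : Set (Fin n × Fin n)) := by
      intro e
      induction e with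
      | _ u v =>
        intro huv
        rw [SimpleGraph.mem_edgeSet] at huv
        refine ⟨(u, v), ?_, rfl⟩
        rw [Finset.mem_coe, mem_product]
        exact ⟨mem_supp G huv, mem_supp G huv.symm⟩
    exact (Set.ncard_le_ncard h3 (Set.toFinite _)).trans (Set.ncard_image_le (Set.toFinite _))
  rw [card_product] at h2
  have h3 : (supp G).card ≤ 2 * k := by omega
  exact h2.trans (Nat.mul_le_mul h3 h3)

theorem lower (t : ℕ) (ht : 1 ≤ t) (k : ℕ) (hk : 1 ≤ k) :
    ((k - 1) / t).choose 2 ≤ exInv k (SimpleGraph.pathGraph (2 * t + 2)) := by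
  apply le_csSup (bdd t ht k)
  refine ⟨(k - 1) / t, ⊤, ?_, ?_⟩
  · refine lt_of_le_of_lt (exIn_top t _) ?_
    have := Nat.mul_div_le (k - 1) t
    omega
  · rw [← SimpleGraph.coe_edgeFinset, Set.ncard_coe_finset, SimpleGraph.card_edgeFinset_top_eq_card_choose_two,
      Fintype.card_fin]

theorem upper (t : ℕ) (ht : 1 ≤ t) (ε : ℝ) (hε : 0 < ε) (hε1 : ε ≤ 1) :
    ∃ K : ℕ, ∀ k : ℕ, K ≤ k → (exInv k (SimpleGraph.pathGraph (2 * t + 2)) : ℝ) ≤
      (k : ℝ) ^ 2 / (2 * (t : ℝ) ^ 2) + 10 * ε * (k : ℝ) ^ 2 := by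
  classical
  obtain ⟨K, hK⟩ := host_bound t ht ε hε hε1
  refine ⟨K, fun k hk => ?_⟩
  rcases (hostSizes k (SimpleGraph.pathGraph (2 * t + 2))).eq_empty_or_nonempty with h0 | h0
  · unfold exInv
    rw [h0, csSup_empty]
    simp only [bot_eq_zero', Nat.cast_zero]
    positivity
  · obtain ⟨n, G, hG, he⟩ := Nat.sSup_mem h0 (bdd t ht k)
    unfold exInv
    rw [← he]
    have := hK k hk (Fin n) G hG
    rw [← SimpleGraph.coe_edgeFinset, Set.ncard_coe_finset]
    exact this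

/-- a binomial coefficient up to an error -/
theorem choose_two_le (t k : ℕ) (ht : 1 ≤ t) :
    (((k / t).choose 2 : ℕ) : ℝ) ≤ (k : ℝ) ^ 2 / (2 * (t : ℝ) ^ 2) := by
  have htr : (1 : ℝ) ≤ t := by exact_mod_cast ht
  have h1 : ((k / t : ℕ) : ℝ) ≤ k / t := Nat.cast_div_le
  have h2 : (0 : ℝ) ≤ ((k / t : ℕ) : ℝ) := by positivity
  rw [Nat.cast_choose_two]
  have h3 : ((k / t : ℕ) : ℝ) ^ 2 ≤ ((k : ℝ) / t) ^ 2 := by gcongr
  have h4 : (k : ℝ) ^ 2 / (2 * (t : ℝ) ^ 2) = ((k : ℝ) / t) ^ 2 / 2 := by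
    field_simp
  rw [h4]
  nlinarith

theorem choose_two_ge (t k : ℕ) (ht : 1 ≤ t) (hk : 1 ≤ k) :
    (k : ℝ) ^ 2 / (2 * (t : ℝ) ^ 2) - 3 * k ≤ ((((k - 1) / t).choose 2 : ℕ) : ℝ) := by
  have htr : (1 : ℝ) ≤ t := by exact_mod_cast ht
  have hkr : (1 : ℝ) ≤ k := by exact_mod_cast hk
  have h1 : (k : ℝ) / t - 1 ≤ (((k - 1) / t : ℕ) : ℝ) := by
    have h2 : k < ((k - 1) / t + 1) * t + 1 := by
      have := Nat.lt_div_mul_add (a := k - 1) (b := t) (by omega)
      rw [Nat.add_mul, one_mul]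
      omega
    have h3 : k ≤ ((k - 1) / t + 1) * t := by omega
    have h4 : (k : ℝ) ≤ ((((k - 1) / t : ℕ) : ℝ) + 1) * t := by exact_mod_cast h3
    rw [sub_le_iff_le_add, div_le_iff₀ (by linarith)]
    exact h4
  have h2 : (((k - 1) / t : ℕ) : ℝ) ≤ k := by
    have : (k - 1) / t ≤ k := (Nat.div_le_self _ _).trans (by omega)
    exact_mod_cast this
  have h5 : (0 : ℝ) ≤ (((k - 1) / t : ℕ) : ℝ) := by positivity
  rw [Nat.cast_choose_two]
  have h4 : (k : ℝ) ^ 2 / (2 * (t : ℝ) ^ 2) = ((k : ℝ) / t) ^ 2 / 2 := by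
    field_simp
  have h6 : (0 : ℝ) ≤ (k : ℝ) / t := by positivity
  have h7 : ((k : ℝ) / t) ^ 2 ≤ ((((k - 1) / t : ℕ) : ℝ) + 1) ^ 2 := by
    apply pow_le_pow_left₀ h6; linarith
  rw [h4]
  nlinarith

/-- **The inverse Turán number of paths of odd length.** For every `t ≥ 1` and every `k` the numbers
of edges of the graphs `G` with `ex(G, P_{2t+1}) < k` are bounded, and their maximum
`ex⁻¹(k, P_{2t+1})` is `C(⌊k/t⌋, 2) + o(k²)`. (`P_{2t+1}` has `2 t + 1` edges, so it is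
`pathGraph (2 t + 2)`.) -/
theorem result (t : ℕ) (ht : 1 ≤ t) :
    (∀ k : ℕ, BddAbove (hostSizes k (SimpleGraph.pathGraph (2 * t + 2)))) ∧
    (fun k : ℕ => (exInv k (SimpleGraph.pathGraph (2 * t + 2)) : ℝ) - (((k / t).choose 2 : ℕ) : ℝ))
      =o[atTop] (fun k : ℕ => (k : ℝ) ^ 2) := by
  refine ⟨bdd t ht, ?_⟩
  rw [isLittleO_iff]
  intro c hc
  obtain ⟨ε, hε, hε1, hεc⟩ : ∃ ε : ℝ, 0 < ε ∧ ε ≤ 1 ∧ 20 * ε ≤ c := by
    refine ⟨min 1 (c / 20), by positivity, min_le_left _ _, ?_⟩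
    have := min_le_right (1 : ℝ) (c / 20)
    linarith
  obtain ⟨K, hK⟩ := upper t ht ε hε hε1
  obtain ⟨K2, hK2⟩ := exists_nat_ge (6 / ε)
  filter_upwards [eventually_ge_atTop (max (max K K2) 1)] with k hk
  have hk1 : K ≤ k := (le_max_left _ _).trans ((le_max_left _ _).trans hk)
  have hk2 : K2 ≤ k := (le_max_right _ _).trans ((le_max_left _ _).trans hk)
  have hk3 : 1 ≤ k := (le_max_right _ _).trans hk
  have hu := hK k hk1
  have hl : ((((k - 1) / t).choose 2 : ℕ) : ℝ) ≤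
      (exInv k (SimpleGraph.pathGraph (2 * t + 2)) : ℝ) := by exact_mod_cast lower t ht k hk3
  have h1 := choose_two_le t k ht
  have h2 := choose_two_ge t k ht hk3
  have h3 : (((((k - 1) / t).choose 2 : ℕ)) : ℝ) ≤ (((k / t).choose 2 : ℕ) : ℝ) := by
    exact_mod_cast Nat.choose_le_choose 2 (Nat.div_le_div_right (Nat.sub_le k 1))
  have h4 : 3 * (k : ℝ) ≤ ε / 2 * (k : ℝ) ^ 2 := by
    have h5 : 6 / ε ≤ (k : ℝ) := hK2.trans (by exact_mod_cast hk2)
    rw [div_le_iff₀ hε] at h5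
    have h6 : (0 : ℝ) ≤ k := by positivity
    nlinarith
  have h7 : (0 : ℝ) ≤ (k : ℝ) ^ 2 := by positivity
  have h8 : 20 * ε * (k : ℝ) ^ 2 ≤ c * (k : ℝ) ^ 2 := mul_le_mul_of_nonneg_right hεc h7
  have h9 : 0 ≤ ε * (k : ℝ) ^ 2 := by positivity
  rw [Real.norm_eq_abs, Real.norm_eq_abs, abs_of_nonneg h7, abs_le]
  constructor
  · linarith
  · linarith

end Pool.Agent.Results.MP_002b89_co.OddPaths
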